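import Pool.Agent.Helper42_CG.Stmt

/-!
# CGP, module CE: the weighted number of connected sets which consist of a core and of extras
-/

set_option autoImplicit false

namespace Pool.Agent.CGP.H70.CE

open SimpleGraph Pool.Agent.LAG Pool.Agent.LLG Pool.Agent.CGP

/-! ### Counting functions with open and closed places -/

section count

variable {ι : Type} [Fintype ι] [DecidableEq ι]

/-- The functions which are open on `O` and closed on `Cl`. -/
def oc {k : ℕ} (z : Fin k) (O Cl : Finset ι) : Finset (ι → Fin k) :=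
  Finset.univ.filter fun f => (∀ e ∈ O, f e = z) ∧ ∀ e ∈ Cl, f e ≠ z

theorem card_oc {k : ℕ} (hk : 1 ≤ k) (z : Fin k) (O Cl : Finset ι) (hd : Disjoint O Cl) :
    ((oc z O Cl).card : ℝ) =
      (k : ℝ) ^ (Fintype.card ι) * (((k : ℝ)⁻¹) ^ O.card * (1 - 1 / (k : ℝ)) ^ Cl.card) := by
  classical
  have hk' : (0 : ℝ) < k := by exact_mod_cast hk
  set S : ι → Finset (Fin k) := fun e =>
    if e ∈ O then {z} else if e ∈ Cl then Finset.univ.erase z else Finset.univ with hS
  have h1 : oc z O Cl = Fintype.piFinset S := by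
    ext f
    simp only [oc, Finset.mem_filter, Finset.mem_univ, true_and, Fintype.mem_piFinset]
    constructor
    · rintro ⟨h1, h2⟩ e
      rw [hS]
      simp only
      split_ifs with ho hc
      · rw [Finset.mem_singleton]
        exact h1 e ho
      · rw [Finset.mem_erase]
        exact ⟨h2 e hc, Finset.mem_univ _⟩
      · exact Finset.mem_univ _
    · intro h
      constructor
      · intro e he
        have h1 := h e
        rw [hS] at h1
        simp only [if_pos he, Finset.mem_singleton] at h1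
        exact h1
      · intro e he
        have h1 := h e
        have h2 : e ∉ O := fun h' => Finset.disjoint_left.mp hd h' he
        rw [hS] at h1
        simp only [if_neg h2, if_pos he, Finset.mem_erase] at h1
        exact h1.1
  rw [h1, Fintype.card_piFinset]
  push_cast
  have h2 : ∀ e, ((S e).card : ℝ) = k * ((if e ∈ O then (k : ℝ)⁻¹ else 1) *
      (if e ∈ Cl then (1 - 1 / (k : ℝ)) else 1)) := by
    intro e
    rw [hS]
    simp only
    by_cases ho : e ∈ O
    · have hc : e ∉ Cl := Finset.disjoint_left.mp hd ho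
      rw [if_pos ho, if_pos ho, if_neg hc, Finset.card_singleton]
      field_simp
      norm_num
    · rw [if_neg ho, if_neg ho]
      by_cases hc : e ∈ Cl
      · rw [if_pos hc, if_pos hc, Finset.card_erase_of_mem (Finset.mem_univ _), Finset.card_univ,
          Fintype.card_fin, Nat.cast_sub hk]
        push_cast
        field_simp
      · rw [if_neg hc, if_neg hc, Finset.card_univ, Fintype.card_fin]
        ring
  rw [Finset.prod_congr rfl fun e _ => h2 e, Finset.prod_mul_distrib, Finset.prod_const,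
    Finset.card_univ, Finset.prod_mul_distrib]
  congr 2
  · rw [Finset.prod_ite_mem, Finset.univ_inter, Finset.prod_const]
  · rw [Finset.prod_ite_mem, Finset.univ_inter, Finset.prod_const]

theorem le_card_oc {k : ℕ} (hk : 2 ≤ k) (z : Fin k) (O Cl : Finset ι) (hd : Disjoint O Cl)
    {o c : ℕ} (ho : O.card ≤ o) (hc : Cl.card ≤ c) :
    (k : ℝ) ^ (Fintype.card ι) * (((k : ℝ)⁻¹) ^ o * (1 - 1 / (k : ℝ)) ^ c) ≤
      ((oc z O Cl).card : ℝ) := by
  have hk' : (2 : ℝ) ≤ k := by exact_mod_cast hk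
  rw [card_oc (by omega) z O Cl hd]
  have h1 : (k : ℝ)⁻¹ ≤ 1 := inv_le_one_of_one_le₀ (by linarith)
  have h2 : (0 : ℝ) ≤ 1 - 1 / (k : ℝ) := by
    rw [one_div]
    linarith
  have h3 : 1 - 1 / (k : ℝ) ≤ 1 := by
    have : (0 : ℝ) ≤ 1 / k := by positivity
    linarith
  have h4 := pow_le_pow_of_le_one (by positivity : (0 : ℝ) ≤ (k : ℝ)⁻¹) h1 ho
  have h5 := pow_le_pow_of_le_one h2 h3 hc
  have h6 : (0 : ℝ) ≤ (1 - 1 / (k : ℝ)) ^ c := pow_nonneg h2 _
  gcongr

/-- `1 - 1/k ≥ exp (-2/k)`. -/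
theorem one_sub_ge {k : ℕ} (hk : 2 ≤ k) (c : ℕ) :
    Real.exp (-(2 * c / (k : ℝ))) ≤ (1 - 1 / (k : ℝ)) ^ c := by
  have hk' : (2 : ℝ) ≤ k := by exact_mod_cast hk
  have h1 : Real.exp (-(2 / (k : ℝ))) ≤ 1 - 1 / (k : ℝ) := by
    rw [Real.exp_neg]
    have h2 : 2 / (k : ℝ) + 1 ≤ Real.exp (2 / (k : ℝ)) := Real.add_one_le_exp _
    have h3 : (0 : ℝ) < 2 / (k : ℝ) + 1 := by positivity
    calc (Real.exp (2 / (k : ℝ)))⁻¹ ≤ (2 / (k : ℝ) + 1)⁻¹ := by gcongr
      _ ≤ 1 - 1 / (k : ℝ) := by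
        rw [inv_le_iff_one_le_mul₀ h3]
        have h4 : (1 - 1 / (k : ℝ)) * (2 / (k : ℝ) + 1) = 1 + (k - 2) / (k : ℝ) ^ 2 := by
          field_simp
          ring
        rw [h4]
        have : (0 : ℝ) ≤ (k - 2) / (k : ℝ) ^ 2 := by
          apply div_nonneg <;> [linarith; positivity]
        linarith
  have h2 : Real.exp (-(2 * c / (k : ℝ))) = Real.exp (-(2 / (k : ℝ))) ^ c := by
    rw [← Real.exp_nat_mul]
    congr 1
    ring
  rw [h2]
  gcongr

end count

/-! ### The exploration -/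

section explore

variable {W : Type} {k s : ℕ}

/-- The exploration: `Rch true w` is `w ∈ K`, `Rch false w` is `w ∈ X`. -/
inductive Rch (Γ : SimpleGraph W) (nb : W → Fin k → W) (z : Fin k) (p : W → Fin s → Fin k)
    (a a' : W × W → Fin k) (v : W) (t : Bool) : Bool → W → Prop
  | base : Rch Γ nb z p a a' v t t v
  | pick (w : W) (i : Fin s) : Rch Γ nb z p a a' v t true w →
      Rch Γ nb z p a a' v t true (nb w (p w i))
  | kcip (w : W) (i : Fin s) : Rch Γ nb z p a a' v t true (nb w (p w i)) →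
      Rch Γ nb z p a a' v t true w
  | lk (b : Bool) (w w' : W) : Rch Γ nb z p a a' v t b w → Γ.Adj w w' → a (w, w') = z →
      Rch Γ nb z p a a' v t true w'
  | lx (b : Bool) (w w' : W) : Rch Γ nb z p a a' v t b w → Γ.Adj w w' → a' (w, w') = z →
      Rch Γ nb z p a a' v t false w'

variable [Fintype W] [DecidableEq W]

/-- The configurations. -/
abbrev Cfg (W : Type) (k s : ℕ) : Type :=
  (W → Fin s → Fin k) × ((W × W → Fin k) × (W × W → Fin k))

open Classical in
/-- The core of the outcome. -/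
noncomputable def oK (Γ : SimpleGraph W) (nb : W → Fin k → W) (z : Fin k) (v : W) (t : Bool)
    (ω : Cfg W k s) : Finset W :=
  Finset.univ.filter fun w => Rch Γ nb z ω.1 ω.2.1 ω.2.2 v t true w

open Classical in
/-- The extras of the outcome. -/
noncomputable def oE (Γ : SimpleGraph W) (nb : W → Fin k → W) (z : Fin k) (v : W) (t : Bool)
    (ω : Cfg W k s) : Finset W :=
  Finset.univ.filter fun w => Rch Γ nb z ω.1 ω.2.1 ω.2.2 v t false w ∧
    ¬ Rch Γ nb z ω.1 ω.2.1 ω.2.2 v t true w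

open Classical in
/-- The links of the outcome. -/
noncomputable def oL (Γ : SimpleGraph W) (nb : W → Fin k → W) (z : Fin k) (v : W) (t : Bool)
    (ω : Cfg W k s) : Finset (Sym2 W) :=
  Finset.univ.filter fun l =>
    (∃ w w', l = s(w, w') ∧ (w ∈ oK Γ nb z v t ω ∨ w ∈ oE Γ nb z v t ω) ∧
      w' ∈ oE Γ nb z v t ω ∧ Γ.Adj w w' ∧ ω.2.2 (w, w') = z) ∨
    ∃ w w', l = s(w, w') ∧ w ∈ oE Γ nb z v t ω ∧ w' ∈ oK Γ nb z v t ω ∧ Γ.Adj w w' ∧
      ω.2.1 (w, w') = z

/-- The outcome. -/
noncomputable def outc (Γ : SimpleGraph W) (nb : W → Fin k → W) (z : Fin k) (v : W) (t : Bool)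
    (ω : Cfg W k s) : Finset W × Finset W × Finset (Sym2 W) :=
  (oK Γ nb z v t ω, oE Γ nb z v t ω, oL Γ nb z v t ω)

/-- Sufficient conditions for an outcome. -/
structure Suf (Γ : SimpleGraph W) (nb : W → Fin k → W) (z : Fin k) (v : W) (t : Bool)
    (C E : Finset W) (L : Finset (Sym2 W)) (D T : Finset (W × W)) (r : W → ℕ)
    (p : W → Fin s → Fin k) (a a' : W × W → Fin k) : Prop where
  disj : Disjoint C E
  base : (t = true ∧ v ∈ C) ∨ (t = false ∧ v ∈ E)
  link : ∀ l ∈ L, l ∈ Γ.edgeSet ∧ (∀ w ∈ l, w ∈ C ∪ E) ∧ ∃ w ∈ l, w ∈ E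
  hp : Insd nb (C : Set W) p
  a1 : ∀ w w', (w ∈ C ∨ w ∈ E) → w' ∉ C → Γ.Adj w w' → a (w, w') ≠ z
  a2 : ∀ w ∈ E, ∀ w' ∈ C, Γ.Adj w w' → (a (w, w') = z ↔ (w, w') ∈ D)
  a3 : ∀ w w', (w ∈ C ∨ w ∈ E) → w' ∉ C → w' ∉ E → Γ.Adj w w' → a' (w, w') ≠ z
  a4 : ∀ w w', (w ∈ C ∨ w ∈ E) → w' ∈ E → Γ.Adj w w' → (a' (w, w') = z ↔ (w, w') ∈ D)
  aT : ∀ e ∈ T, a e = z
  D1 : ∀ e ∈ D, s(e.1, e.2) ∈ L
  D2 : ∀ l ∈ L, ∃ e ∈ D, l = s(e.1, e.2)
  D3 : ∀ y x, s(y, x) ∈ L → r y < r x → (y, x) ∈ D
  hr : ∀ w, (w ∈ C ∨ w ∈ E) → w ≠ v → ∃ y, (y ∈ C ∨ y ∈ E) ∧ r y < r w ∧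
    ((y ∈ C ∧ w ∈ C ∧ Γ.Adj y w) ∨ s(y, w) ∈ L)
  hT : ∀ w (hw : w ∈ (C : Set W)), ∃ x, ∃ hx : x ∈ (C : Set W), r x ≤ r w ∧
    ((pkg nb p).induce (C : Set W)).Reachable ⟨x, hx⟩ ⟨w, hw⟩ ∧
    (x = v ∨ (∃ y ∈ C, r y < r x ∧ (y, x) ∈ T ∧ Γ.Adj y x) ∨ ∃ y ∈ E, r y < r x ∧ s(y, x) ∈ L)

omit [Fintype W] [DecidableEq W] in
theorem rch_clu {Γ : SimpleGraph W} {nb : W → Fin k → W} {z : Fin k} {v : W} {t : Bool}
    {p : W → Fin s → Fin k} {a a' : W × W → Fin k} {C : Finset W} {x w : (C : Set W)}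
    (h : ((pkg nb p).induce (C : Set W)).Reachable x w)
    (hx : Rch Γ nb z p a a' v t true x) : Rch Γ nb z p a a' v t true w := by
  rw [reachable_iff_reflTransGen] at h
  induction h with
  | refl => exact hx
  | tail _ hbc ih =>
    rename_i b c _
    have h1 : (pkg nb p).Adj b c := hbc
    obtain ⟨_, ⟨i, hi⟩ | ⟨i, hi⟩⟩ := h1
    · rw [← hi]
      exact Rch.pick _ i ih
    · apply Rch.kcip _ i
      rw [hi]
      exact ih

section suf

omit [Fintype W]

variable {Γ : SimpleGraph W} {nb : W → Fin k → W} {z : Fin k} {v : W} {t : Bool}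
  {C E : Finset W} {L : Finset (Sym2 W)} {D T : Finset (W × W)} {r : W → ℕ}
  {p : W → Fin s → Fin k} {a a' : W × W → Fin k}

theorem Suf.sound (h : Suf Γ nb z v t C E L D T r p a a') {b : Bool} {w : W}
    (hw : Rch Γ nb z p a a' v t b w) : (b = true → w ∈ C) ∧ (w ∈ C ∨ w ∈ E) := by
  induction hw with
  | base =>
    rcases h.base with ⟨h1, h2⟩ | ⟨h1, h2⟩
    · exact ⟨fun _ => h2, Or.inl h2⟩
    · exact ⟨fun h' => absurd (h1.symm.trans h') Bool.false_ne_true, Or.inr h2⟩
  | pick w i _ ih =>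
    have h1 := (h.hp w i).mp (ih.1 rfl)
    exact ⟨fun _ => h1, Or.inl h1⟩
  | kcip w i _ ih =>
    have h1 := (h.hp w i).mpr (ih.1 rfl)
    exact ⟨fun _ => h1, Or.inl h1⟩
  | lk b w w' _ hadj ha ih =>
    have h1 : w' ∈ C := by
      by_contra hc
      exact h.a1 w w' ih.2 hc hadj ha
    exact ⟨fun _ => h1, Or.inl h1⟩
  | lx b w w' _ hadj ha ih =>
    refine ⟨fun h' => absurd h' Bool.false_ne_true, ?_⟩
    by_contra hc
    rw [not_or] at hc
    exact h.a3 w w' ih.2 hc.1 hc.2 hadj ha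

theorem Suf.compl (h : Suf Γ nb z v t C E L D T r p a a') : ∀ n w, r w < n →
    (w ∈ C → Rch Γ nb z p a a' v t true w) ∧ (w ∈ E → Rch Γ nb z p a a' v t false w) := by
  intro n
  induction n with
  | zero => intro w hw; exact absurd hw (Nat.not_lt_zero _)
  | succ n ih =>
    intro w hw
    constructor
    · intro hwC
      obtain ⟨x, hx, hrx, hre, hc⟩ := h.hT w hwC
      refine rch_clu hre ?_
      change Rch Γ nb z p a a' v t true x
      rcases hc with rfl | ⟨y, hy, hry, hyT, hadj⟩ | ⟨y, hy, hry, hyL⟩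
      · rcases h.base with ⟨h1, _⟩ | ⟨_, h2⟩
        · rw [← h1]
          exact Rch.base
        · exact absurd h2 (Finset.disjoint_left.mp h.disj hx)
      · exact Rch.lk true y x ((ih y (by omega)).1 hy) hadj (h.aT _ hyT)
      · have h1 := h.D3 y x hyL hry
        have hadj : Γ.Adj y x := (h.link _ hyL).1
        exact Rch.lk false y x ((ih y (by omega)).2 hy) hadj ((h.a2 y hy x hx hadj).mpr h1)
    · intro hwE
      by_cases hwv : w = v
      · subst hwv
        rcases h.base with ⟨_, h2⟩ | ⟨h1, _⟩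
        · exact absurd hwE (Finset.disjoint_left.mp h.disj h2)
        · rw [← h1]
          exact Rch.base
      · obtain ⟨y, hyU, hry, hc⟩ := h.hr w (Or.inr hwE) hwv
        rcases hc with ⟨_, hwC, _⟩ | hyL
        · exact absurd hwE (Finset.disjoint_left.mp h.disj hwC)
        · have h1 := h.D3 y w hyL hry
          have hadj : Γ.Adj y w := (h.link _ hyL).1
          have h2 := (h.a4 y w hyU hwE hadj).mpr h1
          rcases hyU with hy | hy
          · exact Rch.lx true y w ((ih y (by omega)).1 hy) hadj h2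
          · exact Rch.lx false y w ((ih y (by omega)).2 hy) hadj h2

theorem Suf.out [Fintype W] (h : Suf Γ nb z v t C E L D T r p a a') :
    outc Γ nb z v t (p, (a, a')) = (C, E, L) := by
  classical
  have hK : oK Γ nb z v t (p, (a, a')) = C := by
    ext w
    unfold oK
    rw [Finset.mem_filter]
    constructor
    · rintro ⟨_, h1⟩
      exact (h.sound h1).1 rfl
    · intro h1
      exact ⟨Finset.mem_univ _, (h.compl (r w + 1) w (Nat.lt_succ_self _)).1 h1⟩
  have hE : oE Γ nb z v t (p, (a, a')) = E := by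
    ext w
    unfold oE
    rw [Finset.mem_filter]
    constructor
    · rintro ⟨_, h1, h2⟩
      rcases (h.sound h1).2 with h3 | h3
      · exact absurd ((h.compl (r w + 1) w (Nat.lt_succ_self _)).1 h3) h2
      · exact h3
    · intro h1
      refine ⟨Finset.mem_univ _, (h.compl (r w + 1) w (Nat.lt_succ_self _)).2 h1, ?_⟩
      intro h2
      exact Finset.disjoint_left.mp h.disj ((h.sound h2).1 rfl) h1
  have hL : oL Γ nb z v t (p, (a, a')) = L := by
    ext l
    unfold oL
    rw [Finset.mem_filter, hK, hE]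
    constructor
    · rintro ⟨_, ⟨w, w', rfl, hw, hw', hadj, ha⟩ | ⟨w, w', rfl, hw, hw', hadj, ha⟩⟩
      · exact h.D1 _ ((h.a4 w w' hw hw' hadj).mp ha)
      · exact h.D1 _ ((h.a2 w hw w' hw' hadj).mp ha)
    · intro hl
      refine ⟨Finset.mem_univ _, ?_⟩
      obtain ⟨⟨w, w'⟩, he, rfl⟩ := h.D2 l hl
      obtain ⟨hadj, hU, hx⟩ := h.link _ hl
      have hw : w ∈ C ∨ w ∈ E := Finset.mem_union.mp (hU w (Sym2.mem_mk_left _ _))
      have hw' : w' ∈ C ∨ w' ∈ E := Finset.mem_union.mp (hU w' (Sym2.mem_mk_right _ _))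
      have hadj' : Γ.Adj w w' := hadj
      rcases hw' with hw' | hw'
      · right
        have hwE : w ∈ E := by
          obtain ⟨x, hx1, hx2⟩ := hx
          rcases Sym2.mem_iff.mp hx1 with rfl | rfl
          · exact hx2
          · exact absurd hx2 (Finset.disjoint_left.mp h.disj hw')
        exact ⟨w, w', rfl, hwE, hw', hadj', (h.a2 w hwE w' hw' hadj').mpr he⟩
      · left
        exact ⟨w, w', rfl, hw, hw', hadj', (h.a4 w w' hw hw' hadj').mpr he⟩
  unfold outc
  rw [hK, hE, hL]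

end suf

end explore

/-! ### Ranks, orientations and transversals -/

section constr

variable {W : Type} [Fintype W] [DecidableEq W] {k s : ℕ}

omit [Fintype W] in
/-- The distance from `v` along the edges inside `C` and the links. -/
theorem exists_rank {Γ : SimpleGraph W} {C E : Finset W} {L : Finset (Sym2 W)} {v : W}
    (hconn : ∀ w ∈ C ∪ E, (lnk Γ (C : Set W) (L : Set (Sym2 W))).Reachable w v)
    (hlink : ∀ l ∈ L, l ∈ Γ.edgeSet ∧ (∀ w ∈ l, w ∈ C ∪ E) ∧ ∃ w ∈ l, w ∈ E) :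
    ∃ r : W → ℕ, ∀ w, (w ∈ C ∨ w ∈ E) → w ≠ v → ∃ y, (y ∈ C ∨ y ∈ E) ∧ r y < r w ∧
      ((y ∈ C ∧ w ∈ C ∧ Γ.Adj y w) ∨ s(y, w) ∈ L) := by
  refine ⟨fun w => (lnk Γ (C : Set W) (L : Set (Sym2 W))).dist w v, ?_⟩
  intro w hw hwv
  obtain ⟨q, hq⟩ := (hconn w (Finset.mem_union.mpr hw)).exists_walk_length_eq_dist
  cases q with
  | nil => exact absurd rfl hwv
  | cons hadj q =>
    rename_i y
    refine ⟨y, ?_, ?_, ?_⟩
    · rcases hadj.2 with ⟨_, h2, _⟩ | h1
      · exact Or.inl h2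
      · exact Finset.mem_union.mp ((hlink _ h1).2.1 y (Sym2.mem_mk_right _ _))
    · have h1 := dist_le q
      rw [Walk.length_cons] at hq
      change (lnk Γ (C : Set W) (L : Set (Sym2 W))).dist y v <
        (lnk Γ (C : Set W) (L : Set (Sym2 W))).dist w v
      omega
    · rcases hadj.2 with ⟨h1, h2, h3⟩ | h1
      · exact Or.inl ⟨h2, h1, h3.symm⟩
      · right
        rw [Sym2.eq_swap]
        exact h1

omit [Fintype W] in
/-- Every link is directed away from `v`. -/
theorem exists_orient (L : Finset (Sym2 W)) (r : W → ℕ) : ∃ D : Finset (W × W),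
    D.card = L.card ∧ (∀ e ∈ D, s(e.1, e.2) ∈ L) ∧ (∀ l ∈ L, ∃ e ∈ D, l = s(e.1, e.2)) ∧
    ∀ y x, s(y, x) ∈ L → r y < r x → (y, x) ∈ D := by
  have h1 : ∀ l : Sym2 W, ∃ e : W × W, l = s(e.1, e.2) ∧ r e.1 ≤ r e.2 := by
    intro l
    induction l using Sym2.ind with
    | _ a b =>
      rcases le_total (r a) (r b) with h | h
      · exact ⟨(a, b), rfl, h⟩
      · exact ⟨(b, a), Sym2.eq_swap, h⟩
  choose o ho1 ho2 using h1
  refine ⟨L.image o, ?_, ?_, ?_, ?_⟩
  · apply Finset.card_image_of_injective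
    intro l l' h
    rw [ho1 l, ho1 l', h]
  · intro e he
    obtain ⟨l, hl, rfl⟩ := Finset.mem_image.mp he
    rw [← ho1 l]
    exact hl
  · intro l hl
    exact ⟨o l, Finset.mem_image_of_mem o hl, ho1 l⟩
  · intro y x hL hr
    have h1 := ho1 s(y, x)
    have h2 := ho2 s(y, x)
    rw [Finset.mem_image]
    refine ⟨s(y, x), hL, ?_⟩
    rcases Sym2.eq_iff.mp h1 with ⟨h3, h4⟩ | ⟨h3, h4⟩
    · exact Prod.ext h3.symm h4.symm
    · exfalso
      rw [← h3, ← h4] at h2
      omega

/-- One entry for every cluster. -/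
theorem exists_T {Γ : SimpleGraph W} {nb : W → Fin k → W} {C E : Finset W}
    {L : Finset (Sym2 W)} {v : W} {r : W → ℕ} (hdisj : Disjoint C E)
    (hlink : ∀ l ∈ L, l ∈ Γ.edgeSet ∧ (∀ w ∈ l, w ∈ C ∪ E) ∧ ∃ w ∈ l, w ∈ E)
    (hr : ∀ w, (w ∈ C ∨ w ∈ E) → w ≠ v → ∃ y, (y ∈ C ∨ y ∈ E) ∧ r y < r w ∧
      ((y ∈ C ∧ w ∈ C ∧ Γ.Adj y w) ∨ s(y, w) ∈ L)) (p : W → Fin s → Fin k) :
    ∃ T : Finset (W × W), T.card ≤ cc ((pkg nb p).induce (C : Set W)) ∧
      (∀ e ∈ T, e.1 ∈ C ∧ e.2 ∈ C) ∧
      ∀ w (hw : w ∈ (C : Set W)), ∃ x, ∃ hx : x ∈ (C : Set W), r x ≤ r w ∧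
        ((pkg nb p).induce (C : Set W)).Reachable ⟨x, hx⟩ ⟨w, hw⟩ ∧
        (x = v ∨ (∃ y ∈ C, r y < r x ∧ (y, x) ∈ T ∧ Γ.Adj y x) ∨
          ∃ y ∈ E, r y < r x ∧ s(y, x) ∈ L) := by
  classical
  set H := (pkg nb p).induce (C : Set W) with hH
  have hf : Fintype H.ConnectedComponent := Fintype.ofFinite _
  -- the entry of a cluster
  have h1 : ∀ c : H.ConnectedComponent, ∃ x : (C : Set W), H.connectedComponentMk x = c ∧
      ∀ w : (C : Set W), H.connectedComponentMk w = c → r x ≤ r w := by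
    intro c
    obtain ⟨x0, hx0⟩ := c.exists_rep
    have hne : (Finset.univ.filter fun x : (C : Set W) =>
        H.connectedComponentMk x = c).Nonempty :=
      ⟨x0, by rw [Finset.mem_filter]; exact ⟨Finset.mem_univ _, hx0⟩⟩
    obtain ⟨x, hx, hmin⟩ := Finset.exists_min_image _ (fun x : (C : Set W) => r x) hne
    rw [Finset.mem_filter] at hx
    refine ⟨x, hx.2, fun w hw => hmin w ?_⟩
    rw [Finset.mem_filter]
    exact ⟨Finset.mem_univ _, hw⟩
  choose ent hent1 hent2 using h1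
  -- the predecessor
  have h2 : ∀ x : (C : Set W), ∃ y ∈ C, (∃ y' ∈ C, r y' < r x ∧ Γ.Adj y' x) →
      r y < r x ∧ Γ.Adj y x := by
    intro x
    by_cases h : ∃ y' ∈ C, r y' < r x ∧ Γ.Adj y' x
    · obtain ⟨y, hy, h3⟩ := h
      exact ⟨y, hy, fun _ => h3⟩
    · exact ⟨x, x.2, fun h' => absurd h' h⟩
  choose pr hpr1 hpr2 using h2
  refine ⟨(Finset.univ : Finset H.ConnectedComponent).image
    (fun c => (pr (ent c), (ent c : W))), ?_, ?_, ?_⟩
  · refine Finset.card_image_le.trans ?_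
    unfold cc
    rw [Nat.card_eq_fintype_card, Finset.card_univ]
  · intro e he
    obtain ⟨c, _, rfl⟩ := Finset.mem_image.mp he
    exact ⟨hpr1 _, (ent c).2⟩
  · intro w hw
    set c := H.connectedComponentMk ⟨w, hw⟩ with hc
    refine ⟨ent c, (ent c).2, hent2 c ⟨w, hw⟩ rfl, ?_, ?_⟩
    · exact ConnectedComponent.exact (hent1 c)
    · by_cases hxv : (ent c : W) = v
      · exact Or.inl hxv
      · right
        obtain ⟨y, _, hry, h3⟩ := hr (ent c) (Or.inl (ent c).2) hxv
        rcases h3 with ⟨hyC, _, hadj⟩ | hyL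
        · left
          obtain ⟨h4, h5⟩ := hpr2 (ent c) ⟨y, hyC, hry, hadj⟩
          exact ⟨pr (ent c), hpr1 _, h4, Finset.mem_image_of_mem _ (Finset.mem_univ c), h5⟩
        · right
          obtain ⟨_, _, x', hx1, hx2⟩ := hlink _ hyL
          refine ⟨y, ?_, hry, hyL⟩
          rcases Sym2.mem_iff.mp hx1 with rfl | rfl
          · exact hx2
          · exact absurd hx2 (Finset.disjoint_left.mp hdisj (ent c).2)

open Classical in
/-- The number of the closed pairs. -/
theorem card_closed {Γ : SimpleGraph W} (hreg : ∀ v, (Γ.neighborSet v).ncard = k)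
    (C E : Finset W) (S : Finset (W × W))
    (hS : ∀ e ∈ S, Γ.Adj e.1 e.2 ∧ (e.1 ∈ E ∨ (e.1 ∈ C ∧ e.2 ∉ C))) :
    S.card ≤ bd Γ (C : Set W) + k * E.card := by
  have h1 : S ⊆ (Finset.univ.filter fun e : W × W => e.1 ∈ C ∧ e.2 ∉ C ∧ Γ.Adj e.1 e.2) ∪
      E.biUnion fun w => (Finset.univ.filter fun x => Γ.Adj w x).image fun x => (w, x) := by
    rintro ⟨a, b⟩ he
    rw [Finset.mem_union, Finset.mem_filter, Finset.mem_biUnion]
    obtain ⟨h2, h3 | h3⟩ := hS _ he
    · right
      refine ⟨a, h3, Finset.mem_image.mpr ⟨b, ?_, rfl⟩⟩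
      rw [Finset.mem_filter]
      exact ⟨Finset.mem_univ _, h2⟩
    · left
      exact ⟨Finset.mem_univ _, h3.1, h3.2, h2⟩
  refine (Finset.card_le_card h1).trans ((Finset.card_union_le _ _).trans ?_)
  apply add_le_add
  · unfold bd
    rw [Set.ncard_eq_toFinset_card']
    apply Finset.card_le_card
    intro e he
    rw [Finset.mem_filter] at he
    rw [Set.mem_toFinset]
    exact he.2
  · refine Finset.card_biUnion_le.trans ?_
    have h2 : ∀ w ∈ E, ((Finset.univ.filter fun x => Γ.Adj w x).image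
        fun x => (w, x)).card ≤ k := by
      intro w _
      refine Finset.card_image_le.trans ?_
      rw [← hreg w, Set.ncard_eq_toFinset_card']
      apply Finset.card_le_card
      intro x hx
      rw [Finset.mem_filter] at hx
      rw [Set.mem_toFinset]
      exact hx.2
    refine (Finset.sum_le_sum h2).trans ?_
    rw [Finset.sum_const, smul_eq_mul, mul_comm]

end constr

/-! ### The lower bound for an outcome -/

section lower

variable {W : Type} [Fintype W] [DecidableEq W] {k s : ℕ}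

open Classical in
/-- The number of the configurations with a given outcome. -/
theorem card_out {Γ : SimpleGraph W} {nb : W → Fin k → W} (hk : 2 ≤ k) (z : Fin k)
    (hreg : ∀ v, (Γ.neighborSet v).ncard = k) {v : W} {t : Bool} {C E : Finset W}
    {L : Finset (Sym2 W)} (hc : CertE Γ k C E L)
    (hbase : (t = true ∧ v ∈ C) ∨ (t = false ∧ v ∈ E)) :
    (k : ℝ) ^ (2 * Fintype.card (W × W)) *
      (((k : ℝ)⁻¹) ^ L.card * (1 - 1 / (k : ℝ)) ^ (2 * (bd Γ (C : Set W) + k * E.card))) *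
      ∑ p ∈ insd s nb (C : Set W),
        ((k : ℝ)⁻¹) ^ (cc ((pkg nb p).induce (C : Set W))) ≤
      ((Finset.univ.filter fun ω : Cfg W k s => outc Γ nb z v t ω = (C, E, L)).card : ℝ) := by
  obtain ⟨hdisj, _, hlink, hconn⟩ := hc
  have hvU : v ∈ C ∪ E := by
    rw [Finset.mem_union]
    rcases hbase with ⟨_, h⟩ | ⟨_, h⟩
    · exact Or.inl h
    · exact Or.inr h
  obtain ⟨r, hr⟩ := exists_rank (fun w hw => hconn w hw v hvU) hlink
  obtain ⟨D, hDc, hD1, hD2, hD3⟩ := exists_orient L r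
  have hT := fun p : W → Fin s → Fin k => exists_T (nb := nb) hdisj hlink hr p
  choose T hTc hTC hT using hT
  -- the closed and the open pairs
  set Oa : Finset (W × W) := D.filter fun e => e.2 ∈ C with hOa
  set Ox : Finset (W × W) := D.filter fun e => e.2 ∈ E with hOx
  set Ca : Finset (W × W) := Finset.univ.filter fun e => (Γ.Adj e.1 e.2 ∧
    (e.1 ∈ E ∨ (e.1 ∈ C ∧ e.2 ∉ C))) ∧ ¬ (e ∈ D ∧ e.2 ∈ C) with hCa
  set Cx : Finset (W × W) := Finset.univ.filter fun e => (Γ.Adj e.1 e.2 ∧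
    (e.1 ∈ C ∨ e.1 ∈ E) ∧ e.2 ∉ C) ∧ ¬ (e ∈ D ∧ e.2 ∈ E) with hCx
  set N := bd Γ (C : Set W) + k * E.card with hN
  have hCac : Ca.card ≤ N := by
    apply card_closed hreg
    intro e he
    rw [hCa, Finset.mem_filter] at he
    exact he.2.1
  have hCxc : Cx.card ≤ N := by
    apply card_closed hreg
    intro e he
    rw [hCx, Finset.mem_filter] at he
    obtain ⟨_, ⟨h1, h2 | h2, h3⟩, _⟩ := he
    · exact ⟨h1, Or.inr ⟨h2, h3⟩⟩
    · exact ⟨h1, Or.inl h2⟩
  have hOc : Oa.card + Ox.card = L.card := by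
    rw [← hDc, hOa, hOx, ← Finset.card_union_of_disjoint]
    · congr 1
      ext e
      rw [Finset.mem_union, Finset.mem_filter, Finset.mem_filter]
      constructor
      · rintro (h | h)
        · exact h.1
        · exact h.1
      · intro he
        have h1 := (hlink _ (hD1 e he)).2.1 e.2 (Sym2.mem_mk_right _ _)
        rcases Finset.mem_union.mp h1 with h2 | h2
        · exact Or.inl ⟨he, h2⟩
        · exact Or.inr ⟨he, h2⟩
    · rw [Finset.disjoint_left]
      intro e h1 h2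
      rw [Finset.mem_filter] at h1 h2
      exact Finset.disjoint_left.mp hdisj h1.2 h2.2
  have hd1 : ∀ p, Disjoint (Oa ∪ T p) Ca := by
    intro p
    rw [Finset.disjoint_left]
    intro e he hc
    rw [hCa, Finset.mem_filter] at hc
    rcases Finset.mem_union.mp he with h | h
    · rw [hOa, Finset.mem_filter] at h
      exact hc.2.2 h
    · obtain ⟨h1, h2⟩ := hTC p e h
      rcases hc.2.1.2 with h3 | h3
      · exact Finset.disjoint_left.mp hdisj h1 h3
      · exact h3.2 h2
  have hd2 : Disjoint Ox Cx := by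
    rw [Finset.disjoint_left]
    intro e he hc
    rw [hCx, Finset.mem_filter] at hc
    rw [hOx, Finset.mem_filter] at he
    exact hc.2.2 he
  -- the sufficient conditions
  have key : ∀ p ∈ insd s nb (C : Set W), ∀ a ∈ oc z (Oa ∪ T p) Ca, ∀ a' ∈ oc z Ox Cx,
      outc Γ nb z v t (p, (a, a')) = (C, E, L) := by
    intro p hp a ha a' ha'
    unfold oc at ha ha'
    rw [Finset.mem_filter] at ha ha'
    obtain ⟨_, ha1, ha2⟩ := ha
    obtain ⟨_, hx1, hx2⟩ := ha'
    apply Suf.out (D := D) (T := T p) (r := r)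
    refine ⟨hdisj, hbase, hlink, ?_, ?_, ?_, ?_, ?_, ?_, hD1, hD2, hD3, hr, hT p⟩
    · unfold insd at hp
      exact (Finset.mem_filter.mp hp).2
    · intro w w' hw hw' hadj
      apply ha2
      rw [hCa, Finset.mem_filter]
      refine ⟨Finset.mem_univ _, ⟨hadj, ?_⟩, fun h => hw' h.2⟩
      rcases hw with hw | hw
      · exact Or.inr ⟨hw, hw'⟩
      · exact Or.inl hw
    · intro w hw w' hw' hadj
      constructor
      · intro h
        by_contra hD
        apply ha2 (w, w') _ h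
        rw [hCa, Finset.mem_filter]
        exact ⟨Finset.mem_univ _, ⟨hadj, Or.inl hw⟩, fun h' => hD h'.1⟩
      · intro h
        apply ha1
        rw [Finset.mem_union, hOa, Finset.mem_filter]
        exact Or.inl ⟨h, hw'⟩
    · intro w w' hw hw' hw'' hadj
      apply hx2
      rw [hCx, Finset.mem_filter]
      exact ⟨Finset.mem_univ _, ⟨hadj, hw, hw'⟩, fun h => hw'' h.2⟩
    · intro w w' hw hw' hadj
      constructor
      · intro h
        by_contra hD
        apply hx2 (w, w') _ h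
        rw [hCx, Finset.mem_filter]
        exact ⟨Finset.mem_univ _, ⟨hadj, hw, fun h' => Finset.disjoint_left.mp hdisj h' hw'⟩,
          fun h' => hD h'.1⟩
      · intro h
        apply hx1
        rw [hOx, Finset.mem_filter]
        exact ⟨h, hw'⟩
    · intro e he
      apply ha1
      rw [Finset.mem_union]
      exact Or.inr he
  -- counting
  set S : Finset (Cfg W k s) := Finset.univ.filter fun ω => outc Γ nb z v t ω = (C, E, L) with hS
  have h1 : ∑ p ∈ insd s nb (C : Set W), ((oc z (Oa ∪ T p) Ca).card * (oc z Ox Cx).card) ≤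
      S.card := by
    have h2 : S.card = ∑ p : W → Fin s → Fin k, (S.filter fun ω => ω.1 = p).card :=
      Finset.card_eq_sum_card_fiberwise (fun _ _ => Finset.mem_coe.mpr (Finset.mem_univ _))
    rw [h2]
    refine le_trans ?_ (Finset.sum_le_sum_of_subset (Finset.subset_univ
      (insd s nb (C : Set W))))
    apply Finset.sum_le_sum
    intro p hp
    rw [← Finset.card_product]
    apply Finset.card_le_card_of_injOn (fun x => (p, x))
    · rintro ⟨a, a'⟩ hx
      rw [Finset.mem_coe, Finset.mem_product] at hx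
      rw [Finset.mem_coe, Finset.mem_filter, hS, Finset.mem_filter]
      exact ⟨⟨Finset.mem_univ _, key p hp a hx.1 a' hx.2⟩, rfl⟩
    · intro x _ y _ h
      exact (Prod.mk.inj h).2
  have h2 : (∑ p ∈ insd s nb (C : Set W),
      (((oc z (Oa ∪ T p) Ca).card : ℝ) * ((oc z Ox Cx).card : ℝ))) ≤ (S.card : ℝ) := by
    exact_mod_cast h1
  refine le_trans ?_ h2
  rw [Finset.mul_sum]
  apply Finset.sum_le_sum
  intro p _
  have h3 := le_card_oc hk z (Oa ∪ T p) Ca (hd1 p)
    (o := Oa.card + cc ((pkg nb p).induce (C : Set W)))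
    ((Finset.card_union_le _ _).trans (Nat.add_le_add_left (hTc p) _)) hCac
  have h4 := le_card_oc hk z Ox Cx hd2 le_rfl hCxc
  have hk' : (2 : ℝ) ≤ k := by exact_mod_cast hk
  have h5 : (0 : ℝ) ≤ 1 - 1 / (k : ℝ) := by
    have : 1 / (k : ℝ) ≤ 1 := by
      rw [div_le_one (by linarith)]
      linarith
    linarith
  have h6 := mul_le_mul h3 h4 (by positivity) (by positivity)
  refine le_trans (le_of_eq ?_) h6
  rw [← hOc, pow_add, pow_add, two_mul, pow_add, two_mul, pow_add]
  ring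

end lower

/-- Module CE. -/
theorem ce (pcl : PclStmt) (pin : PinStmt) : CeStmt := by
  intro W _ _ Γ k s κ m hk hm hreg hT hq v 𝒞 h𝒞
  classical
  have hk' : (2 : ℝ) ≤ k := by exact_mod_cast hk
  have hm' : (1 : ℝ) ≤ m := by exact_mod_cast hm
  -- the enumeration of the neighbours
  have hnb : ∃ nb : W → Fin k → W, Enum Γ nb := by
    have h1 : ∀ w, ∃ f : Fin k → W, Function.Injective f ∧ ∀ v, Γ.Adj w v ↔ ∃ i, f i = v := by
      intro w
      have h2 := hreg w
      rw [Set.ncard_eq_toFinset_card'] at h2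
      refine ⟨fun i => ((Finset.equivFinOfCardEq h2).symm i : W), ?_, ?_⟩
      · intro i j hij
        exact (Finset.equivFinOfCardEq h2).symm.injective (Subtype.ext hij)
      · intro v
        constructor
        · intro hv
          have h3 : v ∈ (Γ.neighborSet w).toFinset := by
            rw [Set.mem_toFinset]
            exact hv
          refine ⟨Finset.equivFinOfCardEq h2 ⟨v, h3⟩, ?_⟩
          change (((Finset.equivFinOfCardEq h2).symm ((Finset.equivFinOfCardEq h2) ⟨v, h3⟩) :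
            (Γ.neighborSet w).toFinset) : W) = v
          rw [Equiv.symm_apply_apply]
        · rintro ⟨i, rfl⟩
          have h3 := ((Finset.equivFinOfCardEq h2).symm i).2
          rw [Set.mem_toFinset] at h3
          exact h3
    choose nb h1 h2 using h1
    exact ⟨nb, h1, h2⟩
  obtain ⟨nb, hE⟩ := hnb
  set z : Fin k := ⟨0, by omega⟩ with hz
  -- the total number of configurations
  set M : ℝ := (Fintype.card (W → Fin s → Fin k) : ℝ) *
    (k : ℝ) ^ (2 * Fintype.card (W × W)) with hM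
  have hcard : ((Finset.univ : Finset (Cfg W k s)).card : ℝ) = M := by
    rw [hM, Finset.card_univ, Fintype.card_prod, Fintype.card_prod,
      Fintype.card_fun (α := W × W), Fintype.card_fin, two_mul, pow_add]
    push_cast
    ring
  have hMpos : 0 < M := by
    rw [hM]
    have : 0 < Fintype.card (W → Fin s → Fin k) :=
      Fintype.card_pos_iff.mpr ⟨fun _ _ => z⟩
    have h2 : (0 : ℝ) < Fintype.card (W → Fin s → Fin k) := by exact_mod_cast this
    positivity
  -- the bound for one type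
  have main : ∀ t : Bool, ∀ 𝒟 : Finset (Finset W × Finset W × Finset (Sym2 W)),
      (∀ c ∈ 𝒟, ((t = true ∧ v ∈ c.1) ∨ (t = false ∧ v ∈ c.2.1)) ∧
        CertE Γ k c.1 c.2.1 c.2.2) → ∑ c ∈ 𝒟, wtE Γ k s m c.1 c.2.1 c.2.2 ≤ 1 := by
    intro t 𝒟 h𝒟
    have hlow : ∀ c ∈ 𝒟, M * wtE Γ k s m c.1 c.2.1 c.2.2 ≤
        ((Finset.univ.filter fun ω : Cfg W k s => outc Γ nb z v t ω = c).card : ℝ) := by
      rintro ⟨C, E, L⟩ hc
      obtain ⟨hb, hcert⟩ := h𝒟 _ hc
      have h1 := card_out (s := s) (nb := nb) hk z hreg hcert hb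
      refine le_trans ?_ h1
      -- Jensen
      set I : ℝ := ((insd s nb (C : Set W)).card : ℝ) with hI
      set μ : ℝ := 2 * Real.log k * (C.card : ℝ) / m with hμ
      have hlog : 0 ≤ Real.log k := Real.log_nonneg (by linarith)
      have hJ : Real.exp (-μ) * I ≤ ∑ p ∈ insd s nb (C : Set W),
          ((k : ℝ)⁻¹) ^ (cc ((pkg nb p).induce (C : Set W))) := by
        have h2 := pcl W Γ k s κ m nb (by omega) hm hE hT hq C hcert.2.1
        have h3 : ∀ p ∈ insd s nb (C : Set W), Real.exp (-μ) *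
            (1 + μ - Real.log k * (cc ((pkg nb p).induce (C : Set W)) : ℝ)) ≤
            ((k : ℝ)⁻¹) ^ (cc ((pkg nb p).induce (C : Set W))) := by
          intro p _
          set n := cc ((pkg nb p).induce (C : Set W)) with hn
          have h4 : ((k : ℝ)⁻¹) ^ n = Real.exp (-μ) * Real.exp (μ - Real.log k * n) := by
            rw [← Real.exp_add]
            have h5 : -μ + (μ - Real.log k * n) = n * (-Real.log k) := by ring
            rw [h5, Real.exp_nat_mul, Real.exp_neg, Real.exp_log (by linarith)]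
          rw [h4]
          apply mul_le_mul_of_nonneg_left _ (Real.exp_pos _).le
          have := Real.add_one_le_exp (μ - Real.log k * (n : ℝ))
          linarith
        refine le_trans ?_ (Finset.sum_le_sum h3)
        rw [← Finset.mul_sum]
        apply mul_le_mul_of_nonneg_left _ (Real.exp_pos _).le
        rw [Finset.sum_sub_distrib, Finset.sum_const, nsmul_eq_mul, ← Finset.mul_sum]
        have h6 : Real.log k * ∑ p ∈ insd s nb (C : Set W),
            (cc ((pkg nb p).induce (C : Set W)) : ℝ) ≤ μ * I := by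
          calc Real.log k * ∑ p ∈ insd s nb (C : Set W),
              (cc ((pkg nb p).induce (C : Set W)) : ℝ)
              ≤ Real.log k * (2 * (C.card : ℝ) / m * I) := by gcongr
            _ = μ * I := by rw [hμ]; ring
        rw [← hI]
        nlinarith
      have hP := pin W Γ k s nb (by omega) hE C hcert.2.1
      set P0 : ℝ := (Fintype.card (W → Fin s → Fin k) : ℝ) with hP0
      have hO := one_sub_ge hk (2 * (bd Γ (C : Set W) + k * E.card))
      have hO2 : Real.exp (-(4 * (bd Γ (C : Set W) : ℝ) / k + 4 * (E.card : ℝ))) ≤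
          (1 - 1 / (k : ℝ)) ^ (2 * (bd Γ (C : Set W) + k * E.card)) := by
        refine le_trans (le_of_eq ?_) hO
        congr 1
        push_cast
        field_simp
        ring
      -- assembly
      have e1 : M * wtE Γ k s m C E L = (k : ℝ) ^ (2 * Fintype.card (W × W)) *
          (((k : ℝ)⁻¹) ^ L.card *
            Real.exp (-(4 * (bd Γ (C : Set W) : ℝ) / k + 4 * (E.card : ℝ)))) *
          (Real.exp (-μ) * (Real.exp (-(16 / 5 * (s : ℝ) * (bd Γ (C : Set W) : ℝ) / k)) *
            P0)) := by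
        unfold wtE
        have e2 : Real.exp (-((16 / 5 * (s : ℝ) + 4) * (bd Γ (C : Set W) : ℝ) / k +
            4 * (E.card : ℝ) + 2 * Real.log k * (C.card : ℝ) / m)) =
            Real.exp (-(4 * (bd Γ (C : Set W) : ℝ) / k + 4 * (E.card : ℝ))) *
            (Real.exp (-μ) *
              Real.exp (-(16 / 5 * (s : ℝ) * (bd Γ (C : Set W) : ℝ) / k))) := by
          rw [← Real.exp_add, ← Real.exp_add]
          congr 1
          rw [hμ]
          ring
        rw [e2, hM, inv_pow]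
        ring
      have h7 : Real.exp (-μ) * (Real.exp (-(16 / 5 * (s : ℝ) * (bd Γ (C : Set W) : ℝ) / k)) *
          P0) ≤ ∑ p ∈ insd s nb (C : Set W),
          ((k : ℝ)⁻¹) ^ (cc ((pkg nb p).induce (C : Set W))) := by
        refine le_trans ?_ hJ
        gcongr
      rw [e1]
      have h8 : (0 : ℝ) ≤ (1 - 1 / (k : ℝ)) ^ (2 * (bd Γ (C : Set W) + k * E.card)) :=
        le_trans (Real.exp_pos _).le hO2
      gcongr
    -- the outcomes are disjoint
    have hsum : ∑ c ∈ 𝒟, ((Finset.univ.filter fun ω : Cfg W k s =>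
        outc Γ nb z v t ω = c).card : ℝ) ≤ M := by
      rw [← hcard]
      have h2 : ∑ c ∈ 𝒟, (Finset.univ.filter fun ω : Cfg W k s =>
          outc Γ nb z v t ω = c).card ≤ (Finset.univ : Finset (Cfg W k s)).card := by
        rw [← Finset.card_biUnion]
        · exact Finset.card_le_card (Finset.subset_univ _)
        · intro c _ c' _ hcc
          rw [Function.onFun, Finset.disjoint_left]
          intro ω h1 h2
          rw [Finset.mem_filter] at h1 h2
          exact hcc (h1.2.symm.trans h2.2)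
      exact_mod_cast h2
    have h3 : M * ∑ c ∈ 𝒟, wtE Γ k s m c.1 c.2.1 c.2.2 ≤ M * 1 := by
      rw [Finset.mul_sum, mul_one]
      exact (Finset.sum_le_sum hlow).trans hsum
    exact le_of_mul_le_mul_left h3 hMpos
  -- the two types
  have h1 : ∑ c ∈ 𝒞, wtE Γ k s m c.1 c.2.1 c.2.2 =
      ∑ c ∈ 𝒞.filter (fun c => v ∈ c.1), wtE Γ k s m c.1 c.2.1 c.2.2 +
      ∑ c ∈ 𝒞.filter (fun c => ¬ v ∈ c.1), wtE Γ k s m c.1 c.2.1 c.2.2 :=
    (Finset.sum_filter_add_sum_filter_not _ _ _).symm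
  rw [h1]
  have h2 := main true (𝒞.filter fun c => v ∈ c.1) (by
    intro c hc
    rw [Finset.mem_filter] at hc
    exact ⟨Or.inl ⟨rfl, hc.2⟩, (h𝒞 c hc.1).2⟩)
  have h3 := main false (𝒞.filter fun c => ¬ v ∈ c.1) (by
    intro c hc
    rw [Finset.mem_filter] at hc
    refine ⟨Or.inr ⟨rfl, ?_⟩, (h𝒞 c hc.1).2⟩
    rcases Finset.mem_union.mp (h𝒞 c hc.1).1 with h | h
    · exact absurd h hc.2
    · exact h)
  linarith

end Pool.Agent.CGP.H70.CE
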