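import Pool.Agent.Helper42_CG.Stmt

/-!
# CGP, module PCK: all picks of a small set stay in it with small probability
-/

set_option autoImplicit false

namespace Pool.Agent.CGP.H70

open SimpleGraph Pool.Agent.LAG Pool.Agent.LLG Pool.Agent.CGP

section amgm

/-- The inequality between the geometric and the arithmetic mean, in the form used here. -/
theorem prod_le_pow {ι : Type} (K : Finset ι) (x : ι → ℕ) (κ : ℕ)
    (h : ∑ w ∈ K, x w ≤ κ * K.card) : ∏ w ∈ K, (x w : ℝ) ≤ (κ : ℝ) ^ K.card := by
  classical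
  rcases Nat.eq_zero_or_pos κ with hκ | hκ
  · subst hκ
    rw [zero_mul, Nat.le_zero, Finset.sum_eq_zero_iff] at h
    rcases K.eq_empty_or_nonempty with rfl | ⟨w, hw⟩
    · simp
    · rw [Finset.prod_eq_zero hw (by rw [h w hw]; simp)]
      positivity
  · have hκ' : (0 : ℝ) < κ := by exact_mod_cast hκ
    have h1 : ∏ w ∈ K, (x w : ℝ) ≤ ∏ w ∈ K, ((κ : ℝ) * Real.exp ((x w : ℝ) / κ - 1)) := by
      apply Finset.prod_le_prod
      · intro w _
        positivity
      · intro w _
        have h2 := Real.add_one_le_exp ((x w : ℝ) / κ - 1)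
        rw [sub_add_cancel] at h2
        calc (x w : ℝ) = κ * ((x w : ℝ) / κ) := by field_simp
          _ ≤ κ * Real.exp ((x w : ℝ) / κ - 1) := by gcongr
    refine h1.trans ?_
    rw [Finset.prod_mul_distrib, Finset.prod_const, ← Real.exp_sum]
    have h3 : ∑ w ∈ K, ((x w : ℝ) / κ - 1) ≤ 0 := by
      rw [Finset.sum_sub_distrib, ← Finset.sum_div, Finset.sum_const, nsmul_eq_mul, mul_one]
      have h4 : ((∑ w ∈ K, (x w : ℝ))) ≤ κ * K.card := by exact_mod_cast h
      rw [sub_nonpos, div_le_iff₀ hκ']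
      linarith
    have h5 : Real.exp (∑ w ∈ K, ((x w : ℝ) / κ - 1)) ≤ 1 := Real.exp_le_one_iff.mpr h3
    calc (κ : ℝ) ^ K.card * Real.exp (∑ w ∈ K, ((x w : ℝ) / κ - 1))
        ≤ (κ : ℝ) ^ K.card * 1 := by gcongr
      _ = (κ : ℝ) ^ K.card := mul_one _

end amgm

section pck

variable {W : Type} [Fintype W] [DecidableEq W] {Γ : SimpleGraph W} {k s : ℕ}
  {nb : W → Fin k → W}

/-- The picks allowed at a vertex. -/
def Aw (nb : W → Fin k → W) (C : Finset W) (w : W) : Finset (Fin k) :=
  Finset.univ.filter fun a => (w ∈ C ↔ nb w a ∈ C)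

/-- The picks which stay in a set. -/
def Bw (nb : W → Fin k → W) (K : Finset W) (w : W) : Finset (Fin k) :=
  Finset.univ.filter fun a => nb w a ∈ K

theorem insd_eq (s : ℕ) (nb : W → Fin k → W) (C : Finset W) :
    insd s nb (C : Set W) = Fintype.piFinset fun w => Fintype.piFinset fun _ => Aw nb C w := by
  classical
  ext p
  simp only [insd, Insd, Finset.mem_filter, Finset.mem_univ, true_and, Fintype.mem_piFinset, Aw,
    Finset.mem_coe]

theorem card_insd (s : ℕ) (nb : W → Fin k → W) (C : Finset W) :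
    (insd s nb (C : Set W)).card = ∏ w, (Aw nb C w).card ^ s := by
  rw [insd_eq, Fintype.card_piFinset]
  refine Finset.prod_congr rfl fun w _ => ?_
  rw [Fintype.card_piFinset, Finset.prod_const, Finset.card_univ, Fintype.card_fin]

theorem filter_eq (s : ℕ) (nb : W → Fin k → W) {C K : Finset W} (hK : K ⊆ C) :
    (insd s nb (C : Set W)).filter (fun p => ∀ w ∈ K, ∀ i, nb w (p w i) ∈ K) =
      Fintype.piFinset fun w => Fintype.piFinset fun _ =>
        if w ∈ K then Bw nb K w else Aw nb C w := by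
  classical
  ext p
  rw [Finset.mem_filter, insd_eq]
  simp only [Fintype.mem_piFinset]
  constructor
  · rintro ⟨h1, h2⟩ w i
    split_ifs with hw
    · simp only [Bw, Finset.mem_filter, Finset.mem_univ, true_and]
      exact h2 w hw i
    · exact h1 w i
  · intro h
    constructor
    · intro w i
      have h1 := h w i
      split_ifs at h1 with hw
      · simp only [Bw, Finset.mem_filter, Finset.mem_univ, true_and] at h1
        simp only [Aw, Finset.mem_filter, Finset.mem_univ, true_and]
        exact ⟨fun _ => hK h1, fun _ => hK hw⟩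
      · exact h1
    · intro w hw i
      have h1 := h w i
      rw [if_pos hw] at h1
      simpa only [Bw, Finset.mem_filter, Finset.mem_univ, true_and] using h1

theorem card_filter' (s : ℕ) (nb : W → Fin k → W) {C K : Finset W} (hK : K ⊆ C) :
    ((insd s nb (C : Set W)).filter (fun p => ∀ w ∈ K, ∀ i, nb w (p w i) ∈ K)).card =
      ∏ w, (if w ∈ K then Bw nb K w else Aw nb C w).card ^ s := by
  rw [filter_eq s nb hK, Fintype.card_piFinset]
  refine Finset.prod_congr rfl fun w _ => ?_
  rw [Fintype.card_piFinset, Finset.prod_const, Finset.card_univ, Fintype.card_fin]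

theorem sum_Bw (h : Enum Γ nb) (K : Finset W) : ∑ w ∈ K, (Bw nb K w).card ≤ ins Γ (K : Set W) := by
  classical
  rw [← Finset.card_sigma]
  unfold ins
  rw [Set.ncard_eq_toFinset_card']
  apply Finset.card_le_card_of_injOn (fun x : (_ : W) × Fin k => (x.1, nb x.1 x.2))
  · rintro ⟨w, a⟩ hx
    rw [Finset.mem_coe, Finset.mem_sigma] at hx
    simp only [Bw, Finset.mem_filter, Finset.mem_univ, true_and] at hx
    simp only [Set.coe_toFinset, Set.mem_ofPred_eq, Finset.mem_coe]
    exact ⟨hx.1, hx.2, (h.2 w _).mpr ⟨a, rfl⟩⟩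
  · rintro ⟨w, a⟩ _ ⟨w', a'⟩ _ hxy
    simp only [Prod.mk.injEq] at hxy
    obtain ⟨rfl, h2⟩ := hxy
    rw [h.1 w h2]

theorem card_Aw (h : Enum Γ nb) {C : Finset W} (hC : Core Γ k (C : Set W)) {w : W} (hw : w ∈ C) :
    2 * k ≤ 5 * (Aw nb C w).card := by
  classical
  have h1 : (Aw nb C w).card + (Finset.univ.filter fun a => nb w a ∉ C).card = k := by
    have : Aw nb C w = Finset.univ.filter fun a => nb w a ∈ C := by
      unfold Aw
      apply Finset.filter_congr
      intro a _
      simp [hw]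
    rw [this, Finset.card_filter_add_card_filter_not, Finset.card_univ, Fintype.card_fin]
  have h2 : (Finset.univ.filter fun a => nb w a ∉ C).card ≤
      {v | Γ.Adj w v ∧ v ∉ (C : Set W)}.ncard := by
    rw [Set.ncard_eq_toFinset_card']
    apply Finset.card_le_card_of_injOn (fun a => nb w a)
    · intro a ha
      rw [Finset.mem_coe, Finset.mem_filter] at ha
      simp only [Set.coe_toFinset, Set.mem_ofPred_eq, Finset.mem_coe]
      exact ⟨(h.2 w _).mpr ⟨a, rfl⟩, ha.2⟩
    · intro a _ b _ hab
      exact h.1 w hab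
  have h3 := hC.1 w hw
  omega

end pck

/-- Module PCK. -/
theorem pck : PckStmt := by
  intro W _ _ Γ k s κ m nb hk hE hT C K hC hKC hKm
  classical
  rw [card_filter' s nb hKC, card_insd]
  push_cast
  rw [Finset.prod_pow, Finset.prod_pow, pow_mul', ← mul_pow]
  have hk' : (0 : ℝ) < k := by exact_mod_cast hk
  apply pow_le_pow_left₀ (by positivity)
  -- split the products
  have e1 : ∏ w : W, ((if w ∈ K then Bw nb K w else Aw nb C w).card : ℝ) =
      (∏ w ∈ K, ((Bw nb K w).card : ℝ)) * ∏ w ∈ Finset.univ \ K, ((Aw nb C w).card : ℝ) := by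
    rw [← Finset.prod_sdiff (Finset.subset_univ K), mul_comm]
    congr 1
    · exact Finset.prod_congr rfl fun w hw => by rw [if_pos hw]
    · exact Finset.prod_congr rfl fun w hw => by rw [if_neg (Finset.mem_sdiff.mp hw).2]
  have e2 : ∏ w : W, ((Aw nb C w).card : ℝ) =
      (∏ w ∈ K, ((Aw nb C w).card : ℝ)) * ∏ w ∈ Finset.univ \ K, ((Aw nb C w).card : ℝ) := by
    rw [← Finset.prod_sdiff (Finset.subset_univ K), mul_comm]
  rw [e1, e2, ← mul_assoc]
  apply mul_le_mul_of_nonneg_right _ (by positivity)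
  have h1 : ∏ w ∈ K, ((Bw nb K w).card : ℝ) ≤ (κ : ℝ) ^ K.card := by
    apply prod_le_pow
    refine (sum_Bw hE K).trans ?_
    have := hT (K : Set W) (by rw [Set.ncard_coe_finset]; exact hKm)
    rwa [Set.ncard_coe_finset] at this
  refine h1.trans ?_
  have h2 : (2 * (k : ℝ) / 5) ^ K.card ≤ ∏ w ∈ K, ((Aw nb C w).card : ℝ) := by
    rw [← Finset.prod_const]
    apply Finset.prod_le_prod
    · intro w _
      positivity
    · intro w hw
      have := card_Aw hE hC (hKC hw)
      have h3 : (2 * (k : ℝ)) ≤ 5 * ((Aw nb C w).card : ℝ) := by exact_mod_cast this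
      linarith
  calc (κ : ℝ) ^ K.card = (5 * (κ : ℝ) / (2 * k)) ^ K.card * (2 * (k : ℝ) / 5) ^ K.card := by
        rw [← mul_pow]
        congr 1
        field_simp
    _ ≤ _ := by gcongr

end Pool.Agent.CGP.H70
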