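import Pool.Agent.Helper70_CG.Pck

/-!
# CGP, module PCL: the average number of clusters of the picks in a core
-/

set_option autoImplicit false

namespace Pool.Agent.CGP.H70

open SimpleGraph Pool.Agent.LAG Pool.Agent.LLG Pool.Agent.CGP

section comp

/-- The number of components as a sum over the vertices. -/
theorem cc_eq {X : Type} [Fintype X] (H : SimpleGraph X) :
    (cc H : ℝ) = ∑ w : X, 1 / (({x | H.Reachable w x} : Set X).ncard : ℝ) := by
  classical
  have hf : Fintype H.ConnectedComponent := Fintype.ofFinite _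
  have h0 : ∀ w : X, ({x | H.Reachable w x} : Set X).ncard =
      (Finset.univ.filter fun x => H.Reachable w x).card := by
    intro w
    rw [Set.ncard_eq_toFinset_card']
    congr 1
    ext x
    simp
  simp only [h0]
  unfold cc
  rw [Nat.card_eq_fintype_card]
  have h1 : ∑ w : X, 1 / ((Finset.univ.filter fun x => H.Reachable w x).card : ℝ) =
      ∑ c : H.ConnectedComponent, ∑ w ∈ Finset.univ.filter
        (fun w => H.connectedComponentMk w = c),
        1 / ((Finset.univ.filter fun x => H.Reachable w x).card : ℝ) :=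
    (Finset.sum_fiberwise _ _ _).symm
  rw [h1]
  have h2 : ∀ c : H.ConnectedComponent, ∑ w ∈ Finset.univ.filter
        (fun w => H.connectedComponentMk w = c),
        1 / ((Finset.univ.filter fun x => H.Reachable w x).card : ℝ) = 1 := by
    intro c
    have h3 : ∀ w ∈ Finset.univ.filter (fun w => H.connectedComponentMk w = c),
        1 / ((Finset.univ.filter fun x => H.Reachable w x).card : ℝ) =
        1 / ((Finset.univ.filter fun x => H.connectedComponentMk x = c).card : ℝ) := by
      intro w hw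
      rw [Finset.mem_filter] at hw
      congr 3
      apply Finset.filter_congr
      intro x _
      rw [← hw.2, ConnectedComponent.eq]
      exact ⟨fun h => h.symm, fun h => h.symm⟩
    rw [Finset.sum_congr rfl h3, Finset.sum_const, nsmul_eq_mul]
    have h4 : (Finset.univ.filter fun x => H.connectedComponentMk x = c).card ≠ 0 := by
      obtain ⟨x, hx⟩ := c.exists_rep
      rw [Finset.card_ne_zero]
      exact ⟨x, by rw [Finset.mem_filter]; exact ⟨Finset.mem_univ _, hx⟩⟩
    have h5 : ((Finset.univ.filter fun x => H.connectedComponentMk x = c).card : ℝ) ≠ 0 := by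
      exact_mod_cast h4
    field_simp
  rw [Finset.sum_congr rfl fun c _ => h2 c]
  simp

end comp

section pcl

variable {W : Type} [Fintype W] [DecidableEq W] {Γ : SimpleGraph W} {k s : ℕ}
  {nb : W → Fin k → W}

open Classical in
/-- The cluster of a vertex. -/
noncomputable def clu (nb : W → Fin k → W) (C : Finset W) (p : W → Fin s → Fin k)
    (w : (C : Set W)) : Finset W :=
  Finset.univ.filter fun x => ∃ hx : x ∈ (C : Set W),
    ((pkg nb p).induce (C : Set W)).Reachable w ⟨x, hx⟩

theorem mem_clu {C : Finset W} {p : W → Fin s → Fin k} {w : (C : Set W)} {x : W} :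
    x ∈ clu nb C p w ↔ ∃ hx : x ∈ (C : Set W),
      ((pkg nb p).induce (C : Set W)).Reachable w ⟨x, hx⟩ := by
  classical
  unfold clu
  rw [Finset.mem_filter]
  simp

theorem self_mem_clu {C : Finset W} {p : W → Fin s → Fin k} {w : (C : Set W)} :
    (w : W) ∈ clu nb C p w := mem_clu.mpr ⟨w.2, Reachable.refl _⟩

theorem clu_sub {C : Finset W} {p : W → Fin s → Fin k} {w : (C : Set W)} :
    clu nb C p w ⊆ C := by
  intro x hx
  obtain ⟨h, _⟩ := mem_clu.mp hx
  exact h

theorem card_clu (C : Finset W) (p : W → Fin s → Fin k) (w : (C : Set W)) :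
    (clu nb C p w).card = ({x | ((pkg nb p).induce (C : Set W)).Reachable w x} :
      Set (C : Set W)).ncard := by
  classical
  rw [← Set.ncard_coe_finset]
  symm
  apply Set.ncard_congr (fun (x : (C : Set W)) _ => (x : W))
  · intro x hx
    exact Finset.mem_coe.mpr (mem_clu.mpr ⟨x.2, hx⟩)
  · intro x y _ _ h
    exact Subtype.ext h
  · intro x hx
    obtain ⟨h1, h2⟩ := mem_clu.mp (Finset.mem_coe.mp hx)
    exact ⟨⟨x, h1⟩, h2, rfl⟩

omit [Fintype W] [DecidableEq W] in
theorem adj_nb (h : Enum Γ nb) (w : W) (a : Fin k) : Γ.Adj w (nb w a) := (h.2 w _).mpr ⟨a, rfl⟩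

/-- The picks of a cluster stay in the cluster. -/
theorem clu_pick (h : Enum Γ nb) {C : Finset W} {p : W → Fin s → Fin k}
    (hp : Insd nb (C : Set W) p) {w : (C : Set W)} {x : W} (hx : x ∈ clu nb C p w)
    (i : Fin s) : nb x (p x i) ∈ clu nb C p w := by
  obtain ⟨h1, h2⟩ := mem_clu.mp hx
  have h3 : nb x (p x i) ∈ (C : Set W) := (hp x i).mp h1
  refine mem_clu.mpr ⟨h3, h2.trans ?_⟩
  apply Adj.reachable
  change (pkg nb p).Adj x (nb x (p x i))
  exact ⟨(adj_nb h x _).ne, Or.inl ⟨i, rfl⟩⟩

/-- The clusters are connected in the graph. -/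
theorem clu_conn (h : Enum Γ nb) {C : Finset W} {p : W → Fin s → Fin k}
    {w : (C : Set W)} : (Γ.induce (clu nb C p w : Set W)).Connected := by
  classical
  rw [connected_iff_exists_forall_reachable]
  refine ⟨⟨w, self_mem_clu⟩, ?_⟩
  have key : ∀ z : (C : Set W), Relation.ReflTransGen
      ((pkg nb p).induce (C : Set W)).Adj w z →
      ∃ hz : (z : W) ∈ (clu nb C p w : Set W),
        (Γ.induce (clu nb C p w : Set W)).Reachable ⟨w, self_mem_clu⟩ ⟨z, hz⟩ := by
    intro z hz
    induction hz with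
    | refl => exact ⟨self_mem_clu, Reachable.refl _⟩
    | tail hab hbc ih =>
      rename_i b c
      obtain ⟨hb, hr⟩ := ih
      have hbr := (reachable_iff_reflTransGen _ _).mpr hab
      have hc : (c : W) ∈ (clu nb C p w : Set W) :=
        mem_clu.mpr ⟨c.2, hbr.trans (Adj.reachable hbc)⟩
      refine ⟨hc, hr.trans ?_⟩
      apply Adj.reachable
      change Γ.Adj b c
      have h1 : (pkg nb p).Adj b c := hbc
      obtain ⟨_, ⟨i, hi⟩ | ⟨i, hi⟩⟩ := h1
      · rw [← hi]
        exact adj_nb h _ _
      · rw [← hi]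
        exact (adj_nb h _ _).symm
  rintro ⟨y, hy⟩
  obtain ⟨h1, h2⟩ := mem_clu.mp (Finset.mem_coe.mp hy)
  obtain ⟨_, h3⟩ := key ⟨y, h1⟩ ((reachable_iff_reflTransGen _ _).mp h2)
  exact h3

theorem geo {q : ℝ} (h0 : 0 ≤ q) (h1 : q ≤ 1 / 2) (m : ℕ) :
    ∑ n ∈ Finset.Ico 1 m, q ^ n ≤ 2 * q := by
  rw [Finset.sum_Ico_eq_sum_range]
  have h2 : ∀ i ∈ Finset.range (m - 1), q ^ (1 + i) ≤ q * (1 / 2) ^ i := by
    intro i _
    rw [pow_add, pow_one]
    gcongr
  refine (Finset.sum_le_sum h2).trans ?_
  rw [← Finset.mul_sum, mul_comm]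
  gcongr
  exact sum_geometric_two_le _

open Classical in
/-- The probability that the cluster of a vertex is small. -/
theorem small_clu (cset : CsetStmt) (pck : PckStmt) {κ m : ℕ} (hk : 1 ≤ k) (hm : 1 ≤ m)
    (hE : Enum Γ nb) (hT : Thin Γ κ m)
    (hq : (k : ℝ) ^ 2 * (5 * (κ : ℝ) / (2 * k)) ^ s ≤ 1 / (2 * m)) {C : Finset W}
    (hC : Core Γ k (C : Set W)) (w : (C : Set W)) :
    (((insd s nb (C : Set W)).filter fun p => (clu nb C p w).card < m).card : ℝ) ≤
      1 / m * ((insd s nb (C : Set W)).card : ℝ) := by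
  classical
  set r : ℝ := 5 * (κ : ℝ) / (2 * k) with hr
  have hr0 : 0 ≤ r := by positivity
  set 𝒦 : Finset (Finset W) := Finset.univ.filter fun K =>
    (w : W) ∈ K ∧ K ⊆ C ∧ K.card < m ∧ (Γ.induce (K : Set W)).Connected with h𝒦
  have h1 : (insd s nb (C : Set W)).filter (fun p => (clu nb C p w).card < m) ⊆
      𝒦.biUnion fun K => (insd s nb (C : Set W)).filter
        fun p => ∀ w ∈ K, ∀ i, nb w (p w i) ∈ K := by
    intro p hp
    rw [Finset.mem_filter] at hp
    rw [Finset.mem_biUnion]
    have hpI : Insd nb (C : Set W) p := by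
      have := hp.1
      unfold insd at this
      exact (Finset.mem_filter.mp this).2
    refine ⟨clu nb C p w, ?_, ?_⟩
    · rw [h𝒦, Finset.mem_filter]
      exact ⟨Finset.mem_univ _, self_mem_clu, clu_sub, hp.2, clu_conn hE⟩
    · rw [Finset.mem_filter]
      exact ⟨hp.1, fun x hx i => clu_pick hE hpI hx i⟩
  have h2 : (((insd s nb (C : Set W)).filter fun p => (clu nb C p w).card < m).card : ℝ) ≤
      ∑ K ∈ 𝒦, r ^ (s * K.card) * ((insd s nb (C : Set W)).card : ℝ) := by
    have h3 := (Finset.card_le_card h1).trans Finset.card_biUnion_le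
    refine (Nat.cast_le.mpr h3).trans ?_
    push_cast
    apply Finset.sum_le_sum
    intro K hK
    rw [h𝒦, Finset.mem_filter] at hK
    exact pck W Γ k s κ m nb hk hE hT C K hC hK.2.2.1 hK.2.2.2.1
  refine h2.trans ?_
  rw [← Finset.sum_mul]
  apply mul_le_mul_of_nonneg_right _ (by positivity)
  -- sum over the sizes
  have h4 : ∑ K ∈ 𝒦, r ^ (s * K.card) = ∑ n ∈ Finset.Ico 1 m,
      ∑ K ∈ 𝒦.filter (fun K => K.card = n), r ^ (s * K.card) := by
    symm
    apply Finset.sum_fiberwise_of_maps_to
    intro K hK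
    rw [h𝒦, Finset.mem_filter] at hK
    rw [Finset.mem_Ico]
    exact ⟨Finset.card_pos.mpr ⟨w, hK.2.1⟩, hK.2.2.2.1⟩
  rw [h4]
  set q : ℝ := (k : ℝ) ^ 2 * r ^ s with hqd
  have hq0 : 0 ≤ q := by positivity
  have hm' : (1 : ℝ) ≤ m := by exact_mod_cast hm
  have hq2 : q ≤ 1 / 2 := by
    refine hq.trans ?_
    rw [div_le_div_iff₀ (by positivity) (by norm_num)]
    linarith
  have h5 : ∀ n ∈ Finset.Ico 1 m,
      ∑ K ∈ 𝒦.filter (fun K => K.card = n), r ^ (s * K.card) ≤ q ^ n := by
    intro n hn
    rw [Finset.mem_Ico] at hn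
    have h6 : ∀ K ∈ 𝒦.filter (fun K => K.card = n), r ^ (s * K.card) = r ^ (s * n) := by
      intro K hK
      rw [(Finset.mem_filter.mp hK).2]
    rw [Finset.sum_congr rfl h6, Finset.sum_const, nsmul_eq_mul]
    have h7 : (𝒦.filter (fun K => K.card = n)).card ≤ k ^ (2 * n) := by
      refine le_trans ?_ (cset W Γ k n w hk hn.1 ?_)
      · rw [Nat.card_eq_fintype_card, Fintype.card_subtype]
        apply Finset.card_le_card
        intro K hK
        rw [Finset.mem_filter, h𝒦, Finset.mem_filter] at hK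
        rw [Finset.mem_filter]
        exact ⟨Finset.mem_univ _, hK.1.2.1, hK.2, hK.1.2.2.2.2⟩
      · intro v
        have h8 : Γ.neighborSet v ⊆ Set.range (nb v) := by
          intro x hx
          obtain ⟨i, hi⟩ := (hE.2 v x).mp hx
          exact ⟨i, hi⟩
        calc (Γ.neighborSet v).ncard ≤ (Set.range (nb v)).ncard :=
              Set.ncard_le_ncard h8 (Set.toFinite _)
          _ ≤ (Set.univ : Set (Fin k)).ncard := by
              rw [← Set.image_univ]
              exact Set.ncard_image_le (Set.toFinite _)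
          _ = k := by rw [Set.ncard_univ, Nat.card_eq_fintype_card, Fintype.card_fin]
    calc ((𝒦.filter (fun K => K.card = n)).card : ℝ) * r ^ (s * n)
        ≤ ((k ^ (2 * n) : ℕ) : ℝ) * r ^ (s * n) := by gcongr
      _ = q ^ n := by
          rw [hqd, mul_pow, ← pow_mul, ← pow_mul]
          push_cast
          ring
  refine (Finset.sum_le_sum h5).trans ((geo hq0 hq2 m).trans ?_)
  calc 2 * q ≤ 2 * (1 / (2 * m)) := by gcongr
    _ = 1 / m := by field_simp

end pcl

/-- Module PCL. -/
theorem pcl (cset : CsetStmt) (pck : PckStmt) : PclStmt := by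
  intro W _ _ Γ k s κ m nb hk hm hE hT hq C hC
  classical
  have hm' : (0 : ℝ) < m := by exact_mod_cast hm
  have h1 : ∀ p : W → Fin s → Fin k, (cc ((pkg nb p).induce (C : Set W)) : ℝ) ≤
      ∑ w : (C : Set W), ((if (clu nb C p w).card < m then 1 else 0) + 1 / (m : ℝ)) := by
    intro p
    rw [cc_eq]
    apply Finset.sum_le_sum
    intro w _
    have h2 := card_clu (nb := nb) C p w
    have h3 : (1 : ℝ) ≤ (clu nb C p w).card := by
      have : 0 < (clu nb C p w).card := Finset.card_pos.mpr ⟨w, self_mem_clu⟩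
      exact_mod_cast this
    rw [← h2]
    split_ifs with h5
    · have h6 : (1 : ℝ) / ((clu nb C p w).card : ℝ) ≤ 1 := by
        rw [div_le_one (by linarith)]
        exact h3
      have h7 : (0 : ℝ) ≤ 1 / m := by positivity
      linarith
    · rw [zero_add]
      apply one_div_le_one_div_of_le hm'
      rw [not_lt] at h5
      exact_mod_cast h5
  refine (Finset.sum_le_sum fun p _ => h1 p).trans ?_
  rw [Finset.sum_comm]
  have h2 : ∀ w : (C : Set W), ∑ p ∈ insd s nb (C : Set W),
      ((if (clu nb C p w).card < m then 1 else 0) + 1 / (m : ℝ)) ≤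
      2 / m * ((insd s nb (C : Set W)).card : ℝ) := by
    intro w
    rw [Finset.sum_add_distrib, Finset.sum_const, nsmul_eq_mul, ← Finset.sum_filter,
      Finset.sum_const, nsmul_eq_mul, mul_one]
    have h3 := small_clu cset pck hk hm hE hT hq hC w
    have h4 : (2 : ℝ) / m * ((insd s nb (C : Set W)).card : ℝ) =
        1 / m * ((insd s nb (C : Set W)).card : ℝ) +
          ((insd s nb (C : Set W)).card : ℝ) * (1 / m) := by ring
    rw [h4]
    linarith
  refine (Finset.sum_le_sum fun w _ => h2 w).trans ?_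
  rw [Finset.sum_const, nsmul_eq_mul, Finset.card_univ]
  have h3 : Fintype.card (C : Set W) = C.card := by
    rw [← Nat.card_eq_fintype_card, Nat.card_coe_set_eq, Set.ncard_coe_finset]
  rw [h3]
  apply le_of_eq
  ring

end Pool.Agent.CGP.H70
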